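import Pool.Agent.Helper13_FK.Stmts

/-!
# Squad FK, module LA: large primes dividing `Δ`
-/

namespace Pool.Agent.FK.H90

open Polynomial

noncomputable section

/-- the solutions of a congruence -/
def TS (Φ : ℤ[X]) (H q : ℕ) : Set ℕ := {t : ℕ | t < H ∧ (q : ℤ) ∣ Φ.eval (t : ℤ)}

theorem TS_finite (Φ : ℤ[X]) (H q : ℕ) : (TS Φ H q).Finite :=
  (Set.finite_lt_nat H).subset fun _ ht => ht.1

/-- few primes above `H ^ δ` divide `Δ` -/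
theorem few_primes {C₁ : ℝ} {c H : ℕ} {δ : ℝ} {Δ : ℤ} (hH : 2 ≤ H) (hδ : 0 < δ) (hΔ : Δ ≠ 0)
    (hbd : |(Δ : ℝ)| ≤ C₁ * (H : ℝ) ^ c) (P : Finset ℕ)
    (hP : ∀ p ∈ P, p.Prime ∧ (H : ℝ) ^ δ < p ∧ (p : ℤ) ∣ Δ) :
    (P.card : ℝ) ≤ (Real.log (max C₁ 1) / Real.log 2 + c) / δ := by
  have hH0 : (2 : ℝ) ≤ H := by exact_mod_cast hH
  have hHpos : (0 : ℝ) < H := by linarith
  have hlog2 : 0 < Real.log 2 := Real.log_pos (by norm_num)
  have hlogH : Real.log 2 ≤ Real.log H := Real.log_le_log (by norm_num) hH0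
  have hlogH0 : 0 < Real.log H := lt_of_lt_of_le hlog2 hlogH
  have hsub : P ⊆ Δ.natAbs.primeFactors := by
    intro p hp
    obtain ⟨h1, -, h3⟩ := hP p hp
    rw [Nat.mem_primeFactors]
    refine ⟨h1, Int.natCast_dvd.1 h3, ?_⟩
    exact Int.natAbs_ne_zero.2 hΔ
  have hdvd : (∏ p ∈ P, p) ∣ Δ.natAbs :=
    (Finset.prod_dvd_prod_of_subset _ _ (fun p => p) hsub).trans (Nat.prod_primeFactors_dvd _)
  have hle : (∏ p ∈ P, p) ≤ Δ.natAbs :=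
    Nat.le_of_dvd (Nat.pos_of_ne_zero (Int.natAbs_ne_zero.2 hΔ)) hdvd
  have h1 : ((H : ℝ) ^ δ) ^ P.card ≤ ∏ p ∈ P, (p : ℝ) := by
    rw [← Finset.prod_const]
    apply Finset.prod_le_prod
    · intro i _
      positivity
    · intro i hi
      exact (hP i hi).2.1.le
  have h2 : ∏ p ∈ P, (p : ℝ) ≤ |(Δ : ℝ)| := by
    have h3 : ((∏ p ∈ P, p : ℕ) : ℝ) ≤ (Δ.natAbs : ℝ) := by exact_mod_cast hle
    rw [Nat.cast_prod] at h3
    rw [Nat.cast_natAbs, Int.cast_abs] at h3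
    exact h3
  have h3 : ((H : ℝ) ^ δ) ^ P.card ≤ max C₁ 1 * (H : ℝ) ^ c := by
    refine (h1.trans h2).trans (hbd.trans ?_)
    exact mul_le_mul_of_nonneg_right (le_max_left _ _) (by positivity)
  have hC : 0 < max C₁ 1 := lt_of_lt_of_le one_pos (le_max_right _ _)
  have hC0 : 0 ≤ Real.log (max C₁ 1) := Real.log_nonneg (le_max_right _ _)
  have h4 := Real.log_le_log (by positivity) h3
  rw [Real.log_pow, Real.log_rpow hHpos, Real.log_mul hC.ne' (by positivity), Real.log_pow] at h4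
  have h5 : Real.log (max C₁ 1) ≤ Real.log (max C₁ 1) / Real.log 2 * Real.log H := by
    rw [div_mul_eq_mul_div, le_div_iff₀ hlog2]
    exact mul_le_mul_of_nonneg_left hlogH hC0
  have h6 : (P.card : ℝ) * δ * Real.log H ≤
      (Real.log (max C₁ 1) / Real.log 2 + c) * Real.log H := by
    calc (P.card : ℝ) * δ * Real.log H = (P.card : ℝ) * (δ * Real.log H) := by ring
      _ ≤ Real.log (max C₁ 1) + c * Real.log H := h4
      _ ≤ Real.log (max C₁ 1) / Real.log 2 * Real.log H + c * Real.log H := by linarith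
      _ = _ := by ring
  rw [le_div_iff₀ hδ]
  exact le_of_mul_le_mul_right h6 hlogH0

/-- LA -/
theorem la (hL : L1Stmt) : LaStmt := by
  intro d a C₁ c δ hd ha hδ hδ1
  obtain ⟨C, hC⟩ := hL d a hd ha
  obtain ⟨w, hw⟩ : ∃ w : ℝ, w = 2 / ((d : ℝ) * (d + 1)) := ⟨_, rfl⟩
  have hd1 : (1 : ℝ) ≤ d := by exact_mod_cast hd
  have hw0 : 0 < w := by
    rw [hw]
    positivity
  have hw1 : w ≤ 1 := by
    rw [hw, div_le_one (by positivity)]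
    nlinarith
  obtain ⟨k, hk⟩ : ∃ k : ℝ, k = (Real.log (max C₁ 1) / Real.log 2 + c) / δ := ⟨_, rfl⟩
  have hk0 : 0 ≤ k := by
    have h1 : 0 ≤ Real.log (max C₁ 1) := Real.log_nonneg (le_max_right _ _)
    have h2 : 0 < Real.log 2 := Real.log_pos (by norm_num)
    rw [hk]
    positivity
  refine ⟨δ * w, by positivity, 1 + k * (|C| * 2), ?_⟩
  intro H Φ Δ hH hLP
  have hHr : (1 : ℝ) ≤ H := by exact_mod_cast hH
  have hHpos : (0 : ℝ) < H := by linarith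
  have hexp : 0 ≤ 1 - δ * w := by nlinarith
  have hge : (1 : ℝ) ≤ (H : ℝ) ^ (1 - δ * w) := Real.one_le_rpow hHr hexp
  rcases Nat.lt_or_ge H 2 with h2 | h2
  · have hH1 : H = 1 := by omega
    have hsub : {t : ℕ | t < H ∧ ∃ p : ℕ, p.Prime ∧ (H : ℝ) ^ δ < p ∧
        (p : ℤ) ∣ Φ.eval (t : ℤ) ∧ (p : ℤ) ∣ Δ} ⊆ {0} := by
      rintro t ⟨ht, -⟩
      rw [hH1] at ht
      simp only [Set.mem_singleton_iff]
      omega
    have h3 := Set.ncard_le_ncard hsub (Set.finite_singleton 0)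
    rw [Set.ncard_singleton] at h3
    have h4 : (({t : ℕ | t < H ∧ ∃ p : ℕ, p.Prime ∧ (H : ℝ) ^ δ < p ∧
        (p : ℤ) ∣ Φ.eval (t : ℤ) ∧ (p : ℤ) ∣ Δ}.ncard : ℕ) : ℝ) ≤ 1 := by exact_mod_cast h3
    refine h4.trans ?_
    have h5 : 0 ≤ k * (|C| * 2) := by positivity
    calc (1 : ℝ) ≤ (1 + k * (|C| * 2)) * 1 := by linarith
      _ ≤ _ := mul_le_mul_of_nonneg_left hge (by linarith)
  · obtain ⟨P, hPdef⟩ : ∃ P : Finset ℕ, P = Δ.natAbs.primeFactors.filter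
        (fun p : ℕ => (H : ℝ) ^ δ < (p : ℝ)) := ⟨_, rfl⟩
    have hsub : {t : ℕ | t < H ∧ ∃ p : ℕ, p.Prime ∧ (H : ℝ) ^ δ < p ∧
        (p : ℤ) ∣ Φ.eval (t : ℤ) ∧ (p : ℤ) ∣ Δ} ⊆ ⋃ p ∈ P, TS Φ H p := by
      rintro t ⟨ht, p, hp, hpH, hpt, hpΔ⟩
      simp only [Set.mem_iUnion]
      refine ⟨p, ?_, ht, hpt⟩
      rw [hPdef, Finset.mem_filter, Nat.mem_primeFactors]
      exact ⟨⟨hp, Int.natCast_dvd.1 hpΔ, Int.natAbs_ne_zero.2 hLP.ne⟩, hpH⟩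
    have h3 := Set.ncard_le_ncard hsub
      (P.finite_toSet.biUnion fun p _ => TS_finite Φ H p)
    have h4 := h3.trans (Finset.set_ncard_biUnion_le P (fun p => TS Φ H p))
    have h5 : (({t : ℕ | t < H ∧ ∃ p : ℕ, p.Prime ∧ (H : ℝ) ^ δ < p ∧
        (p : ℤ) ∣ Φ.eval (t : ℤ) ∧ (p : ℤ) ∣ Δ}.ncard : ℕ) : ℝ) ≤
        ∑ p ∈ P, ((TS Φ H p).ncard : ℝ) := by exact_mod_cast h4
    have hPp : ∀ p ∈ P, p.Prime ∧ (H : ℝ) ^ δ < p ∧ (p : ℤ) ∣ Δ := by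
      intro p hp
      rw [hPdef, Finset.mem_filter, Nat.mem_primeFactors] at hp
      exact ⟨hp.1.1, hp.2, Int.natCast_dvd.2 hp.1.2.1⟩
    have h6 : ∀ p ∈ P, ((TS Φ H p).ncard : ℝ) ≤ |C| * 2 * (H : ℝ) ^ (1 - δ * w) := by
      intro p hp
      obtain ⟨hp1, hp2, -⟩ := hPp p hp
      have h7 := hC Φ hLP.deg hLP.lc p H hp1.one_le hH
      have h8 : (p : ℝ) ^ (-(2 / ((d : ℝ) * (d + 1)))) ≤ (H : ℝ) ^ (-(δ * w)) := by
        rw [← hw]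
        have h9 : (p : ℝ) ^ (-w) ≤ ((H : ℝ) ^ δ) ^ (-w) :=
          Real.rpow_le_rpow_of_nonpos (by positivity) hp2.le (by linarith)
        rw [← Real.rpow_mul hHpos.le] at h9
        rwa [mul_neg] at h9
      have h10 : (H : ℝ) * (p : ℝ) ^ (-(2 / ((d : ℝ) * (d + 1)))) ≤ (H : ℝ) ^ (1 - δ * w) := by
        calc (H : ℝ) * (p : ℝ) ^ (-(2 / ((d : ℝ) * (d + 1))))
            ≤ (H : ℝ) * (H : ℝ) ^ (-(δ * w)) := mul_le_mul_of_nonneg_left h8 hHpos.le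
          _ = (H : ℝ) ^ (1 - δ * w) := by
            rw [sub_eq_add_neg, Real.rpow_add hHpos, Real.rpow_one]
      have h11 : 0 ≤ (H : ℝ) * (p : ℝ) ^ (-(2 / ((d : ℝ) * (d + 1)))) := by positivity
      calc ((TS Φ H p).ncard : ℝ)
          ≤ C * (1 + (H : ℝ) * (p : ℝ) ^ (-(2 / ((d : ℝ) * (d + 1))))) := h7
        _ ≤ |C| * (1 + (H : ℝ) * (p : ℝ) ^ (-(2 / ((d : ℝ) * (d + 1))))) :=
          mul_le_mul_of_nonneg_right (le_abs_self C) (by linarith)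
        _ ≤ |C| * ((H : ℝ) ^ (1 - δ * w) + (H : ℝ) ^ (1 - δ * w)) :=
          mul_le_mul_of_nonneg_left (add_le_add hge h10) (abs_nonneg C)
        _ = _ := by ring
    have h7 : ∑ p ∈ P, ((TS Φ H p).ncard : ℝ) ≤ P.card * (|C| * 2 * (H : ℝ) ^ (1 - δ * w)) := by
      have := Finset.sum_le_card_nsmul P _ _ h6
      rwa [nsmul_eq_mul] at this
    have h8 : (P.card : ℝ) ≤ k := by
      rw [hk]
      exact few_primes h2 hδ hLP.ne hLP.bd P hPp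
    have h9 : (0 : ℝ) ≤ |C| * 2 * (H : ℝ) ^ (1 - δ * w) := by positivity
    calc _ ≤ ∑ p ∈ P, ((TS Φ H p).ncard : ℝ) := h5
      _ ≤ P.card * (|C| * 2 * (H : ℝ) ^ (1 - δ * w)) := h7
      _ ≤ k * (|C| * 2 * (H : ℝ) ^ (1 - δ * w)) := mul_le_mul_of_nonneg_right h8 h9
      _ ≤ (1 + k * (|C| * 2)) * (H : ℝ) ^ (1 - δ * w) := by
        have : (0 : ℝ) ≤ (H : ℝ) ^ (1 - δ * w) := by positivity
        nlinarith

end

end Pool.Agent.FK.H90
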